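import Pool.Agent.Helper79.LB.Base
import Pool.Agent.Helper31.EC.Cpy

/-! LEMMA BASE, agreement form: under the hypotheses of `base` (without connectedness) the coefficients `k0, k1` of the
planar slab agree literally in any two copies with the same direction `(x, X)`, so `G = R - k0 t - k1 y` agrees
literally in any two copies with the same line. -/

set_option autoImplicit false

namespace Pool.Agent.Helper79.LB

open Finset Filter Topology Pool.Agent.Helper69.RK Pool.Agent.Helper31.EC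

noncomputable section

open Sp QS Pool.Agent.Helper80.MX

variable {S : Sp}

/-- two copies, conditionally independent over the common direction -/
theorem coef_eq (x X k0 k1 : QS S) (B : S.L) (hR1 : I (dg x 1 ⊔ dg X 1) B ⊥ = 0)
    (hk0 : dg k0 1 ≤ B) (hk1 : dg k1 1 ≤ B) (hpl : X = k0 + k1 * x)
    (hrich : ∀ (W : Sp) (p : Pj W S) (E : ∀ k, (W.F k).Ω → Prop) (hE : 0 < ul (W.pr E)) (r : ℝ), 0 < r → r ≤ 1 →
      0 < H (restL E hE (p.map (dg x r))))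
    {W : Sp} (P Q : Pj W S) (cx : P.qs x = Q.qs x) (cX : P.qs X = Q.qs X)
    (hci : ∀ u v : S.L, I (P.map u) (Q.map v) (P.map (dg x 1 ⊔ dg X 1)) = 0) :
    P.qs k0 = Q.qs k0 ∧ P.qs k1 = Q.qs k1 := by
  obtain ⟨v, hv⟩ : ∃ v, v = P.map (dg x 1 ⊔ dg X 1) := ⟨_, rfl⟩
  have hv' : v = Q.map (dg x 1 ⊔ dg X 1) := by
    rw [hv, P.map_sup, Q.map_sup, ← P.qs_dg, ← P.qs_dg, ← Q.qs_dg, ← Q.qs_dg, cx, cX]
  have i1 : I (Q.map B) v ⊥ = 0 := by
    rw [hv', ← Q.map_bot, Pj.I_map, I_comm]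
    exact hR1
  have i0 : I (P.map B) v ⊥ = 0 := by
    rw [hv, ← P.map_bot, Pj.I_map, I_comm]
    exact hR1
  have i2 : I (Q.map B) (P.map B) v = 0 := by
    rw [I_comm, hv]
    exact hci B B
  have i3 : I (Q.map B) (v ⊔ P.map B) ⊥ = 0 := by
    rw [I_chain_right, i1, zero_add, sup_bot_eq]
    exact i2
  have i4 := I_decomp (by rw [sup_comm] at i3; exact i3 : I (Q.map B) (P.map B ⊔ v) ⊥ = 0)
  have i5 : I (P.map B ⊔ Q.map B) v ⊥ = 0 := by
    rw [I_chain, i0, zero_add]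
    exact i4.2
  obtain ⟨K0, hK0⟩ : ∃ K0, K0 = P.qs k0 - Q.qs k0 := ⟨_, rfl⟩
  obtain ⟨K1, hK1⟩ : ∃ K1, K1 = P.qs k1 - Q.qs k1 := ⟨_, rfl⟩
  have e0 : P.qs X = P.qs k0 + P.qs k1 * P.qs x := by rw [hpl, map_add, map_mul]
  have e1 : Q.qs X = Q.qs k0 + Q.qs k1 * Q.qs x := by rw [hpl, map_add, map_mul]
  have eq : K0 + K1 * P.qs x = 0 := by
    rw [hK0, hK1]
    rw [← cX, ← cx, e0] at e1
    linear_combination e1
  have kB : ∀ k : QS S, dg k 1 ≤ B → dg (P.qs k - Q.qs k) 1 ≤ P.map B ⊔ Q.map B := by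
    intro k hk
    refine (dg_sub_le _ _ le_rfl).trans (sup_le ?_ ?_)
    · rw [Pj.qs_dg]
      exact (P.map_mono hk).trans le_sup_left
    · rw [Pj.qs_dg]
      exact (Q.map_mono hk).trans le_sup_right
  obtain ⟨g, hg⟩ : ∃ g : Fin 2 → QS W, g = ![K0, K1] := ⟨_, rfl⟩
  have hg0 : g 0 = K0 := by rw [hg]; rfl
  have hg1 : g 1 = K1 := by rw [hg]; rfl
  have hvg : vd g 1 ≤ P.map B ⊔ Q.map B := by
    rw [vd_le]
    intro i
    fin_cases i
    · show dg (g 0) 1 ≤ _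
      rw [hg0, hK0]; exact kB k0 hk0
    · show dg (g 1) 1 ≤ _
      rw [hg1, hK1]; exact kB k1 hk1
  obtain ⟨G⟩ := exists_CQ g 1
  have c0 : (G.p 0).qs K0 = (G.p 1).qs K0 := by rw [← hg0]; exact G.com 0 1 0
  have c1 : (G.p 0).qs K1 = (G.p 1).qs K1 := by rw [← hg1]; exact G.com 0 1 1
  have hxv : dg (P.qs x) 1 ≤ v := by
    rw [Pj.qs_dg, hv]
    exact P.map_mono le_sup_left
  have j0 : ∀ i, I (dg ((G.p i).qs (P.qs x)) 1) G.v ⊥ = 0 := by
    intro i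
    rw [(G.p i).qs_dg, ← G.p_v i, ← (G.p i).map_bot, Pj.I_map, I_comm]
    exact I_zero_mono i5 (hvg.trans le_sup_left) (hxv.trans le_sup_left)
  have j1 : I (dg ((G.p 0).qs (P.qs x)) 1) (dg ((G.p 1).qs (P.qs x)) 1) ⊥ = 0 := by
    have h1 : I (dg ((G.p 0).qs (P.qs x)) 1) (G.v ⊔ dg ((G.p 1).qs (P.qs x)) 1) ⊥ = 0 := by
      rw [I_chain_right, j0 0, zero_add, sup_bot_eq, (G.p 0).qs_dg, (G.p 1).qs_dg]
      exact G.I_two (by decide : (0 : Fin 2) ≠ 1) _ _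
    exact I_zero_mono h1 le_sup_left (le_sup_right.trans le_sup_left)
  have hu : IsUnit ((G.p 0).qs (P.qs x) - (G.p 1).qs (P.qs x)) := by
    apply sep_indep j1
    intro E hE r hr0 hr1
    have h1 := hrich G.W ((G.p 0).comp P) E hE r hr0 hr1
    rw [Pj.comp_map, ← P.qs_dg, ← (G.p 0).qs_dg] at h1
    exact h1
  have e2 := congrArg (G.p 0).qs eq
  have e3 := congrArg (G.p 1).qs eq
  rw [map_add, map_mul, map_zero] at e2 e3
  rw [← c0, ← c1] at e3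
  have e4 : ((G.p 0).qs (P.qs x) - (G.p 1).qs (P.qs x)) * (G.p 0).qs K1 = 0 := by
    linear_combination e2 - e3
  have e5 : (G.p 0).qs K1 = 0 := by
    rwa [hu.mul_right_eq_zero] at e4
  have e6 : K1 = 0 := (G.p 0).qs_injective (by rw [e5, map_zero])
  have e7 : K0 = 0 := by
    rw [e6, zero_mul, add_zero] at eq
    exact eq
  exact ⟨sub_eq_zero.mp (by rw [← hK0]; exact e7), sub_eq_zero.mp (by rw [← hK1]; exact e6)⟩

/-- AGREEMENT: the coefficients agree in any two copies with the same direction (any coupling) -/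
theorem coef_agree (x X k0 k1 : QS S) (B : S.L) (hR1 : I (dg x 1 ⊔ dg X 1) B ⊥ = 0)
    (hk0 : dg k0 1 ≤ B) (hk1 : dg k1 1 ≤ B) (hpl : X = k0 + k1 * x)
    (hrich : ∀ (W : Sp) (p : Pj W S) (E : ∀ k, (W.F k).Ω → Prop) (hE : 0 < ul (W.pr E)) (r : ℝ), 0 < r → r ≤ 1 →
      0 < H (restL E hE (p.map (dg x r))))
    {W : Sp} (P Q : Pj W S) (cx : P.qs x = Q.qs x) (cX : P.qs X = Q.qs X) :
    P.qs k0 = Q.qs k0 ∧ P.qs k1 = Q.qs k1 := by
  obtain ⟨f, hf⟩ : ∃ f : Fin 2 → QS S, f = ![x, X] := ⟨_, rfl⟩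
  have hfx : f 0 = x := by rw [hf]; rfl
  have hfX : f 1 = X := by rw [hf]; rfl
  have hvd : vd f 1 = dg x 1 ⊔ dg X 1 := by
    apply le_antisymm
    · rw [vd_le]
      intro i
      fin_cases i
      · show dg (f 0) 1 ≤ _
        rw [hfx]; exact le_sup_left
      · show dg (f 1) 1 ≤ _
        rw [hfX]; exact le_sup_right
    · refine sup_le ?_ ?_
      · rw [← hfx]; exact dg_le_vd f 1 0
      · rw [← hfX]; exact dg_le_vd f 1 1
  obtain ⟨D, p1, p2, hc, hi⟩ := Pj.exists_copy P f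
  have gx : p1.qs (P.qs x) = p2.qs x := by rw [← hfx]; exact hc 0
  have gX : p1.qs (P.qs X) = p2.qs X := by rw [← hfX]; exact hc 1
  have hPQ : P.map (dg x 1 ⊔ dg X 1) = Q.map (dg x 1 ⊔ dg X 1) := by
    rw [P.map_sup, Q.map_sup, ← P.qs_dg, ← P.qs_dg, ← Q.qs_dg, ← Q.qs_dg, cx, cX]
  have a1 := coef_eq x X k0 k1 B hR1 hk0 hk1 hpl hrich (p1.comp P) p2
    (by rw [Pj.comp_qs]; exact gx) (by rw [Pj.comp_qs]; exact gX) (fun u v => by
      rw [Pj.comp_map, Pj.comp_map, ← hvd]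
      exact hi _ _)
  have a2 := coef_eq x X k0 k1 B hR1 hk0 hk1 hpl hrich (p1.comp Q) p2
    (by rw [Pj.comp_qs, ← cx]; exact gx) (by rw [Pj.comp_qs, ← cX]; exact gX) (fun u v => by
      rw [Pj.comp_map, Pj.comp_map, ← hPQ, ← hvd]
      exact hi _ _)
  rw [Pj.comp_qs, Pj.comp_qs] at a1 a2
  exact ⟨p1.qs_injective (a1.1.trans a2.1.symm), p1.qs_injective (a1.2.trans a2.2.symm)⟩

/-- the function `G = R - k0 t - k1 y` agrees in any two copies with the same line -/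
theorem base_line (t x y R X a c k0 k1 : QS S) (B : S.L) (ha : y = a + t * x) (hc : R = c + t * X)
    (hR1 : I (dg x 1 ⊔ dg X 1) B ⊥ = 0)
    (hk0 : dg k0 1 ≤ B) (hk1 : dg k1 1 ≤ B) (hpl : X = k0 + k1 * x)
    (hrich : ∀ (W : Sp) (p : Pj W S) (E : ∀ k, (W.F k).Ω → Prop) (hE : 0 < ul (W.pr E)) (r : ℝ), 0 < r → r ≤ 1 →
      0 < H (restL E hE (p.map (dg x r))))
    {W : Sp} (P Q : Pj W S) (cx : P.qs x = Q.qs x) (cX : P.qs X = Q.qs X) (ca : P.qs a = Q.qs a)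
    (cc : P.qs c = Q.qs c) :
    P.qs (R - k0 * t - k1 * y) = Q.qs (R - k0 * t - k1 * y) := by
  have hG : R - k0 * t - k1 * y = c - k1 * a := by
    rw [hc, ha, hpl]
    ring
  rw [hG, map_sub, map_sub, map_mul, map_mul, cc, ca, (coef_agree x X k0 k1 B hR1 hk0 hk1 hpl hrich P Q cx cX).2]

end

end Pool.Agent.Helper79.LB
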