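import Pool.Agent.Helper80.MX.Span
import Pool.Agent.Helper31.EC.Rl

/-! LEMMA BASE (R^4, case B, offset `lam(c) - c > 0` at a window with weights `(1, 1, w)`). In the exact calculus:
if the bushes are planar over the point and the direction is independent of the point, then the slab is a function
of the flat base. -/

set_option autoImplicit false

namespace Pool.Agent.Helper79.LB

open Finset Filter Topology Pool.Agent.Helper69.RK Pool.Agent.Helper31.EC

noncomputable section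

open Sp QS Pool.Agent.Helper80.MX

variable {S : Sp}

theorem I_self_bot {L : Type*} [PM L] {a : L} (h : I a a ⊥ = 0) : a = ⊥ := by
  rw [I_zero_iff_h, sup_bot_eq, h_self, h_bot] at h
  have h1 : Pool.Agent.Helper31.EC.h a ⊥ = 0 := by rw [h_bot]; exact h.symm
  exact le_antisymm (h_eq_zero_iff.mp h1) bot_le

/-- a function known to two independent informations is constant -/
theorem bot_of_indep {L : Type*} [PM L] {a b g : L} (h : I a b ⊥ = 0) (ha : g ≤ a) (hb : g ≤ b) : g = ⊥ :=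
  I_self_bot (I_zero_mono h (ha.trans le_sup_left) (hb.trans le_sup_left))

/-- functions which agree to level `d` on an event have the same digits there -/
theorem dg_rest_eq {W : Sp} (E : ∀ k, (W.F k).Ω → Prop) (hE : 0 < ul (W.pr E)) {f g : QS W} {d r : ℝ}
    (h : QS.rest E hE (f - g) ∈ Id (W.rest E) d) (hr : r ≤ d) (h1 : r ≤ 1) :
    restL E hE (dg f r) = restL E hE (dg g r) := by
  rw [← QS.rest_dg, ← QS.rest_dg]
  rw [map_sub] at h
  exact dg_eq_of_sub_mem h hr h1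

/-- independent copies of a function which is nowhere known are separated -/
theorem sep_indep {W : Sp} {x x' : QS W} (hI : I (dg x 1) (dg x' 1) ⊥ = 0)
    (hx : ∀ (E : ∀ k, (W.F k).Ω → Prop) (hE : 0 < ul (W.pr E)) (r : ℝ), 0 < r → r ≤ 1 →
      0 < H (restL E hE (dg x r))) : IsUnit (x - x') := by
  by_contra hcon
  obtain ⟨d, hd, E, hE, hsm⟩ := exists_small hcon
  obtain ⟨r, hr⟩ : ∃ r, r = min d 1 := ⟨_, rfl⟩
  have hr0 : 0 < r := by rw [hr]; exact lt_min hd one_pos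
  have hr1 : r ≤ 1 := by rw [hr]; exact min_le_right _ _
  have hrd : r ≤ d := by rw [hr]; exact min_le_left _ _
  have h1 := dg_rest_eq E hE hsm hrd hr1
  have h2 := I_rest_zero E hE hI
  rw [restL_bot] at h2
  have h3 : restL E hE (dg x r) = ⊥ := by
    apply bot_of_indep h2 (restL_mono E hE (dg_mono _ hr1))
    rw [h1]
    exact restL_mono E hE (dg_mono _ hr1)
  have h4 := hx E hE r hr0 hr1
  rw [h3, H_bot] at h4
  exact lt_irrefl _ h4

/-- LEMMA BASE. `xi = (a, x; c, X)` over the time `t`: base coordinate `y = a + t x`, slab coordinate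
`R = c + t X`. Line and point have no common labels, the direction `(x, X)` is independent of the point, the slope
`X` is an affine function of `x` given the point, `x` is nowhere known. Then `R` is a function of `(t, y)`. -/
theorem base (t x y R X a c k0 k1 : QS S) (iL B : S.L) (ha : y = a + t * x) (hc : R = c + t * X)
    (hLa : dg a 1 ≤ iL) (hLc : dg c 1 ≤ iL)
    (hBt : dg t 1 ≤ B) (hBy : dg y 1 ≤ B) (hBR : dg R 1 ≤ B)
    (hconn : ∀ V : S.L, V ≤ iL → V ≤ B → V = ⊥)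
    (hR1 : I (dg x 1 ⊔ dg X 1) B ⊥ = 0)
    (hk0 : dg k0 1 ≤ B) (hk1 : dg k1 1 ≤ B) (hpl : X = k0 + k1 * x)
    (hrich : ∀ (W : Sp) (p : Pj W S) (E : ∀ k, (W.F k).Ω → Prop) (hE : 0 < ul (W.pr E)) (r : ℝ), 0 < r → r ≤ 1 →
      0 < H (restL E hE (p.map (dg x r)))) :
    dg R 1 ≤ dg t 1 ⊔ dg y 1 := by
  obtain ⟨f, hf⟩ : ∃ f : Fin 2 → QS S, f = ![x, X] := ⟨_, rfl⟩
  have hfx : f 0 = x := by rw [hf]; rfl
  have hfX : f 1 = X := by rw [hf]; rfl
  have hvd : vd f 1 ≤ dg x 1 ⊔ dg X 1 := by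
    rw [vd_le]
    intro i
    fin_cases i
    · show dg (f 0) 1 ≤ _
      rw [hfx]; exact le_sup_left
    · show dg (f 1) 1 ≤ _
      rw [hfX]; exact le_sup_right
  obtain ⟨C⟩ := exists_CQ f 1
  have cx : (C.p 0).qs x = (C.p 1).qs x := by rw [← hfx]; exact C.com 0 1 0
  have cX : (C.p 0).qs X = (C.p 1).qs X := by rw [← hfX]; exact C.com 0 1 1
  -- the two points are independent of each other and of the direction
  have i1 : I ((C.p 1).map B) C.v ⊥ = 0 := by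
    rw [← C.p_v 1, ← (C.p 1).map_bot, Pj.I_map, I_comm]
    exact I_zero_mono hR1 (hvd.trans le_sup_left) le_sup_left
  have i0 : I ((C.p 0).map B) C.v ⊥ = 0 := by
    rw [← C.p_v 0, ← (C.p 0).map_bot, Pj.I_map, I_comm]
    exact I_zero_mono hR1 (hvd.trans le_sup_left) le_sup_left
  have i2 : I ((C.p 1).map B) ((C.p 0).map B) C.v = 0 := C.I_two (by decide) B B
  have i3 : I ((C.p 1).map B) (C.v ⊔ (C.p 0).map B) ⊥ = 0 := by
    rw [I_chain_right, i1, zero_add, sup_bot_eq]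
    exact i2
  have i4 := I_decomp (by rw [sup_comm] at i3; exact i3 : I ((C.p 1).map B) ((C.p 0).map B ⊔ C.v) ⊥ = 0)
  have i5 : I ((C.p 0).map B ⊔ (C.p 1).map B) C.v ⊥ = 0 := by
    rw [I_chain, i0, zero_add]
    exact i4.2
  -- the coefficients
  obtain ⟨K0, hK0⟩ : ∃ K0, K0 = (C.p 0).qs k0 - (C.p 1).qs k0 := ⟨_, rfl⟩
  obtain ⟨K1, hK1⟩ : ∃ K1, K1 = (C.p 0).qs k1 - (C.p 1).qs k1 := ⟨_, rfl⟩
  have e0 : (C.p 0).qs X = (C.p 0).qs k0 + (C.p 0).qs k1 * (C.p 0).qs x := by rw [hpl, map_add, map_mul]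
  have e1 : (C.p 1).qs X = (C.p 1).qs k0 + (C.p 1).qs k1 * (C.p 1).qs x := by rw [hpl, map_add, map_mul]
  have eq : K0 + K1 * (C.p 0).qs x = 0 := by
    rw [hK0, hK1]
    rw [← cX, ← cx, e0] at e1
    linear_combination e1
  have kB : ∀ k : QS S, dg k 1 ≤ B → dg ((C.p 0).qs k - (C.p 1).qs k) 1 ≤ (C.p 0).map B ⊔ (C.p 1).map B := by
    intro k hk
    refine (dg_sub_le _ _ le_rfl).trans (sup_le ?_ ?_)
    · rw [Pj.qs_dg]
      exact ((C.p 0).map_mono hk).trans le_sup_left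
    · rw [Pj.qs_dg]
      exact ((C.p 1).map_mono hk).trans le_sup_right
  -- second step: two directions over the pair of points
  obtain ⟨g, hg⟩ : ∃ g : Fin 2 → QS C.W, g = ![K0, K1] := ⟨_, rfl⟩
  have hg0 : g 0 = K0 := by rw [hg]; rfl
  have hg1 : g 1 = K1 := by rw [hg]; rfl
  have hvg : vd g 1 ≤ (C.p 0).map B ⊔ (C.p 1).map B := by
    rw [vd_le]
    intro i
    fin_cases i
    · show dg (g 0) 1 ≤ _
      rw [hg0, hK0]; exact kB k0 hk0
    · show dg (g 1) 1 ≤ _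
      rw [hg1, hK1]; exact kB k1 hk1
  obtain ⟨G⟩ := exists_CQ g 1
  have c0 : (G.p 0).qs K0 = (G.p 1).qs K0 := by rw [← hg0]; exact G.com 0 1 0
  have c1 : (G.p 0).qs K1 = (G.p 1).qs K1 := by rw [← hg1]; exact G.com 0 1 1
  have hxv : dg ((C.p 0).qs x) 1 ≤ C.v := by
    rw [Pj.qs_dg, ← C.p_v 0]
    refine (C.p 0).map_mono ?_
    rw [← hfx]
    exact dg_le_vd f 1 0
  have j0 : ∀ i, I (dg ((G.p i).qs ((C.p 0).qs x)) 1) G.v ⊥ = 0 := by
    intro i
    rw [Pj.qs_dg, ← G.p_v i, ← (G.p i).map_bot, Pj.I_map, I_comm]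
    exact I_zero_mono i5 (hvg.trans le_sup_left) (hxv.trans le_sup_left)
  have j1 : I (dg ((G.p 0).qs ((C.p 0).qs x)) 1) (dg ((G.p 1).qs ((C.p 0).qs x)) 1) ⊥ = 0 := by
    have h1 : I (dg ((G.p 0).qs ((C.p 0).qs x)) 1) (G.v ⊔ dg ((G.p 1).qs ((C.p 0).qs x)) 1) ⊥ = 0 := by
      rw [I_chain_right, j0 0, zero_add, sup_bot_eq, (G.p 0).qs_dg, (G.p 1).qs_dg]
      exact G.I_two (by decide : (0 : Fin 2) ≠ 1) _ _
    exact I_zero_mono h1 le_sup_left (le_sup_right.trans le_sup_left)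
  have hu : IsUnit ((G.p 0).qs ((C.p 0).qs x) - (G.p 1).qs ((C.p 0).qs x)) := by
    apply sep_indep j1
    intro E hE r hr0 hr1
    have h1 := hrich G.W ((G.p 0).comp (C.p 0)) E hE r hr0 hr1
    rw [Pj.comp_map, ← Pj.qs_dg, ← Pj.qs_dg] at h1
    exact h1
  have e2 := congrArg (G.p 0).qs eq
  have e3 := congrArg (G.p 1).qs eq
  rw [map_add, map_mul, map_zero] at e2 e3
  rw [← c0, ← c1] at e3
  have e4 : ((G.p 0).qs ((C.p 0).qs x) - (G.p 1).qs ((C.p 0).qs x)) * (G.p 0).qs K1 = 0 := by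
    linear_combination e2 - e3
  have e5 : (G.p 0).qs K1 = 0 := by
    rwa [hu.mul_right_eq_zero] at e4
  have e6 : K1 = 0 := (G.p 0).qs_injective (by rw [e5, map_zero])
  have e7 : K0 = 0 := by
    rw [e6, zero_mul, add_zero] at eq
    exact eq
  -- the coefficients are constant
  have hbot : ∀ k : QS S, dg k 1 ≤ B → (C.p 0).qs k - (C.p 1).qs k = 0 → dg k 1 = ⊥ := by
    intro k hk hz
    have h1 : (C.p 0).map (dg k 1) = (C.p 1).map (dg k 1) := by
      rw [← Pj.qs_dg, ← Pj.qs_dg, sub_eq_zero.mp hz]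
    have h2 : (C.p 1).map (dg k 1) = ⊥ := by
      apply bot_of_indep i4.1 ((C.p 1).map_mono hk)
      rw [← h1]
      exact (C.p 0).map_mono hk
    apply (C.p 1).map_injective
    rw [h2, (C.p 1).map_bot]
  have b0 : dg k0 1 = ⊥ := hbot k0 hk0 (by rw [← hK0]; exact e7)
  have b1 : dg k1 1 = ⊥ := hbot k1 hk1 (by rw [← hK1]; exact e6)
  -- the common function
  obtain ⟨g2, hg2⟩ : ∃ g2, g2 = R - k0 * t - k1 * y := ⟨_, rfl⟩
  have hg2' : g2 = c - k1 * a := by
    rw [hg2, hc, ha, hpl]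
    ring
  have m : ∀ {A : S.L} {f : QS S}, dg f 1 ≤ A → f ∈ Kn S 1 le_rfl A := fun h => h
  have gB : dg g2 1 ≤ B := by
    rw [hg2]
    exact (Kn S 1 le_rfl B).sub_mem ((Kn S 1 le_rfl B).sub_mem (m hBR) ((Kn S 1 le_rfl B).mul_mem (m hk0) (m hBt)))
      ((Kn S 1 le_rfl B).mul_mem (m hk1) (m hBy))
  have gL : dg g2 1 ≤ iL := by
    rw [hg2']
    refine (Kn S 1 le_rfl iL).sub_mem (m hLc) ((Kn S 1 le_rfl iL).mul_mem (m ?_) (m hLa))
    rw [b1]
    exact bot_le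
  have gbot := hconn _ gL gB
  have hR : R = g2 + k0 * t + k1 * y := by rw [hg2]; ring
  rw [hR]
  obtain ⟨T, hT⟩ : ∃ T, T = dg t 1 ⊔ dg y 1 := ⟨_, rfl⟩
  rw [← hT]
  have mt : t ∈ Kn S 1 le_rfl T := m (by rw [hT]; exact le_sup_left)
  have my : y ∈ Kn S 1 le_rfl T := m (by rw [hT]; exact le_sup_right)
  have mg : g2 ∈ Kn S 1 le_rfl T := m (by rw [gbot]; exact bot_le)
  have m0 : k0 ∈ Kn S 1 le_rfl T := m (by rw [b0]; exact bot_le)
  have m1 : k1 ∈ Kn S 1 le_rfl T := m (by rw [b1]; exact bot_le)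
  exact (Kn S 1 le_rfl T).add_mem ((Kn S 1 le_rfl T).add_mem mg ((Kn S 1 le_rfl T).mul_mem m0 mt))
    ((Kn S 1 le_rfl T).mul_mem m1 my)

end

end Pool.Agent.Helper79.LB
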